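import Mathlib
import Pool.Agent.helper35.DR.SpecK

set_option autoImplicit false

namespace Pool.Agent.DR

open Pool.Agent.helper58.DC Pool.Agent.DI

/-- roots in `ℂˣ`. -/
theorem KBN_root (n : ℕ) (hn : n ≠ 0) (b : ℂˣ) : ∃ c : ℂˣ, c ^ n = b := by
  obtain ⟨z, hz⟩ := IsAlgClosed.exists_pow_nat_eq (b : ℂ) (Nat.pos_of_ne_zero hn)
  have hz0 : z ≠ 0 := by
    rintro rfl
    rw [zero_pow hn] at hz
    exact b.ne_zero hz.symm
  exact ⟨Units.mk0 z hz0, Units.ext (by simpa using hz)⟩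

/-- the power `|A|` of a cocycle is a coboundary. -/
theorem KBN_card {A : Type} [Group A] [Fintype A] {α : A → A → ℂˣ} (hα : α ∈ Coc A) (a b : A) :
    α a b ^ Fintype.card A = (∏ x : A, α a x) * (∏ x : A, α b x) * (∏ x : A, α (a * b) x)⁻¹ := by
  have h1 : ∏ x : A, (α a b * α (a * b) x) = ∏ x : A, (α a (b * x) * α b x) :=
    Finset.prod_congr rfl fun x _ => hα.1 a b x
  rw [Finset.prod_mul_distrib, Finset.prod_mul_distrib, Finset.prod_const, Finset.card_univ] at h1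
  have h2 : ∏ x : A, α a (b * x) = ∏ x : A, α a x :=
    Fintype.prod_equiv (Equiv.mulLeft b) _ _ fun _ => rfl
  rw [h2] at h1
  rw [← h1, mul_inv_cancel_right]

/-- KBN. Representatives modulo `Kc N`. Uses KPW, KCB. -/
theorem KBN (hKPW : KPW_stmt) (hKCB : KCB_stmt) : KBN_stmt := by
  intro A _ _ N hN r hr hpN α hα
  classical
  have : Fact r.Prime := ⟨hr⟩
  have := Fintype.ofFinite A
  set n : ℕ := r ^ padicValNat r (Nat.card A) with hn
  have hcard0 : Nat.card A ≠ 0 := Nat.card_pos.ne'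
  have hn0 : n ≠ 0 := pow_ne_zero _ hr.ne_zero
  obtain ⟨s, hs⟩ : n ∣ Nat.card A := pow_padicValNat_dvd
  have hrs : ¬ r ∣ s := by
    intro h
    have h1 : r ^ (padicValNat r (Nat.card A) + 1) ∣ Nat.card A := by
      rw [pow_succ, ← hn]
      conv_rhs => rw [hs]
      exact Nat.mul_dvd_mul_left n h
    exact pow_succ_padicValNat_not_dvd hcard0 h1
  have hcop : IsCoprime (n : ℤ) (s : ℤ) := by
    rw [Nat.isCoprime_iff_coprime]
    exact Nat.Coprime.pow_left _ ((Nat.Prime.coprime_iff_not_dvd hr).2 hrs)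
  obtain ⟨u, v, huv⟩ := hcop
  -- `α ^ n ∈ Kc N`
  have hcardN : Nat.card N ∣ n := by
    obtain ⟨j, hj⟩ := IsPGroup.iff_card.1 hpN
    have h1 : Nat.card N ∣ Nat.card A := Subgroup.card_subgroup_dvd_card N
    rw [hj] at h1 ⊢
    rw [hn]
    exact pow_dvd_pow r ((padicValNat_dvd_iff_le hcard0).1 h1)
  have hαn : α ^ n ∈ Kc N := by
    obtain ⟨t, ht⟩ := hcardN
    rw [ht, pow_mul]
    exact pow_mem (hKPW A N hN α hα) t
  -- roots
  have hb1 : ∏ x : A, α 1 x = 1 := by simp [hα.2.1]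
  choose c hc using fun a : A => KBN_root n hn0 (∏ x : A, α a x)
  let c' : A → ℂˣ := fun a => if a = 1 then 1 else c a
  have hc' : ∀ a, c' a ^ n = ∏ x : A, α a x := by
    intro a
    by_cases ha : a = 1
    · subst ha
      simp [c', hb1]
    · simp only [c', if_neg ha]
      exact hc a
  have hc1 : c' 1 = 1 := by simp [c']
  have hcob := hKCB A N hN c' hc1
  set δ : A → A → ℂˣ := fun a b => c' a * c' b * (c' (a * b))⁻¹ with hδ
  have hδC : δ ∈ Coc A := hcob.1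
  have hβ : α ^ s * δ⁻¹ ∈ Bn A n := by
    refine ⟨mul_mem (pow_mem hα s) (inv_mem hδC), fun a b => ?_⟩
    have h1 : (α ^ s * δ⁻¹) a b ^ n = α a b ^ Nat.card A * ((δ a b) ^ n)⁻¹ := by
      simp only [Pi.mul_apply, Pi.pow_apply, Pi.inv_apply]
      rw [mul_pow, inv_pow, ← pow_mul, mul_comm s n, ← hs]
    have h2 : (δ a b) ^ n =
        (∏ x : A, α a x) * (∏ x : A, α b x) * (∏ x : A, α (a * b) x)⁻¹ := by
      simp only [hδ]
      rw [mul_pow, mul_pow, inv_pow, hc', hc', hc']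
    rw [h1, h2, Nat.card_eq_fintype_card, KBN_card hα, mul_inv_cancel]
  refine ⟨(α ^ s * δ⁻¹) ^ v, zpow_mem hβ v, ?_⟩
  have hfin : α * ((α ^ s * δ⁻¹) ^ v)⁻¹ = (α ^ n) ^ u * δ ^ v := by
    have h1 : α = (α ^ n) ^ u * (α ^ s) ^ v := by
      rw [← zpow_natCast, ← zpow_mul, ← zpow_natCast α s, ← zpow_mul, ← zpow_add,
        mul_comm (n : ℤ) u, mul_comm (s : ℤ) v, huv, zpow_one]
    calc α * ((α ^ s * δ⁻¹) ^ v)⁻¹
        = ((α ^ n) ^ u * (α ^ s) ^ v) * ((α ^ s * δ⁻¹) ^ v)⁻¹ := by rw [← h1]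
      _ = (α ^ n) ^ u * δ ^ v := by
          rw [mul_zpow (α ^ s), mul_inv, inv_zpow, inv_inv, mul_assoc, mul_inv_cancel_left]
  rw [hfin]
  exact mul_mem (zpow_mem hαn u) (zpow_mem hcob v)

end Pool.Agent.DR
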